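import Pool.Agent.Q269.SX.St

/-!
# Project SX of helper269, job SX-LCT: local triviality at a place at which the twist is a unit
-/

set_option autoImplicit false
set_option linter.all false

open scoped Classical
open Polynomial IsDedekindDomain Finset

namespace Pool.Agent.Q238.SX

open Pool.Agent.Q269.SX
open Pool.Agent.Y713.SE (hp Pw cl)
open Pool.Agent.Y713.SE.Dat (au rs)

theorem t_LCT (h1 : S_LOC) (h2 : S_TRL) : S_LCT := by
  intro k K _ _ _ _ _ hk hm n hn D v hδ he E _ _ _ Ω _ _ _ _ _ p _ ι χ kd y hy0 hpw hsq hkd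
  have i0 : Fin n := ⟨0, hn.pos⟩
  -- notation
  obtain ⟨a, ha⟩ : ∃ a : K →+* v.adicCompletion K, a = algebraMap K (v.adicCompletion K) := ⟨_, rfl⟩
  have hval : ∀ x : K, Valued.v (a x) = v.valuation K x := by
    intro x
    rw [ha]
    exact Pool.Agent.Y713.SE.val_coe v x
  have ha0 : ∀ x : K, x ≠ 0 → a x ≠ 0 := fun x hx => (_root_.map_ne_zero a).2 hx
  -- the units
  have key : ∀ i, ∃ g z : v.adicCompletion K, Valued.v g = (1 : WithZero (Multiplicative ℤ)) ∧
      z ≠ 0 ∧ a (y i * y i0) = g * z ^ 2 := by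
    intro i
    obtain ⟨β, hβ⟩ := hpw i i0
    have hyy : y i * y i0 ≠ 0 := mul_ne_zero (hy0 i) (hy0 i0)
    have hβ0 : β ≠ 0 := by
      rintro rfl
      rw [zero_pow two_ne_zero] at hβ
      exact hyy ((Valuation.zero_iff _).1 hβ)
    obtain ⟨w, hw⟩ : ∃ w : K, v.valuation K w = β := v.valuation_surjective K β
    have hw0 : w ≠ 0 := by
      rintro rfl
      rw [map_zero] at hw
      exact hβ0 hw.symm
    refine ⟨a (y i * y i0 / w ^ 2), a w, ?_, ha0 w hw0, ?_⟩
    · rw [hval, map_div₀, map_pow, hw, hβ, div_self (pow_ne_zero _ hβ0)]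
    · rw [← map_pow, ← map_mul, div_mul_cancel₀ _ (pow_ne_zero _ hw0)]
  choose g z hg hz hgz using key
  have hg0 : ∀ i, g i ≠ 0 := by
    intro i h
    have := hg i
    rw [h, map_zero] at this
    exact zero_ne_one this
  obtain ⟨U, R, s, hUm, hdvd, hs, hUe⟩ := h1 k K hk hm n hn v (a D.δ) (fun i => a (D.e i)) g
    (by rw [hval, hδ]) (fun i => by rw [hval]; exact he i) hg (by
      intro i j hij
      rw [← map_sub, hval] at hij
      obtain ⟨x, hx⟩ := hsq i j hij
      rw [← ha] at hx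
      refine ⟨x * a (y i0) / (z i * z j), ?_⟩
      have e1 := hgz i
      have e2 := hgz j
      rw [map_mul] at e1 e2 hx
      have hzi := hz i
      have hzj := hz j
      field_simp
      linear_combination (-(g j * z j ^ 2)) * e1 - a (y i) * a (y i0) * e2 + a (y i0) ^ 2 * hx)
  refine h2 n K D E (v.adicCompletion K) Ω p ι χ kd U R hUm ?_ ?_ ?_
  · rw [ha] at hdvd
    exact hdvd
  · intro i
    have := (hUe i).1
    rw [ha] at this
    exact this
  · intro i j
    obtain ⟨hUi, ri, hri⟩ := hUe i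
    obtain ⟨hUj, rj, hrj⟩ := hUe j
    obtain ⟨x, hx0, hx⟩ := hkd i j
    have e0 : a (kd.d i j) = a x ^ 2 * (a (y i) * a (y j)) := by
      rw [hx, map_mul, map_pow, map_mul]
    have e1 := hgz i
    have e2 := hgz j
    rw [map_mul] at e1 e2
    have hri0 : ri ≠ 0 := by
      rintro rfl
      rw [mul_zero] at hri
      exact mul_ne_zero (mul_ne_zero hs (hg0 i)) hUi hri
    have hrj0 : rj ≠ 0 := by
      rintro rfl
      rw [mul_zero] at hrj
      exact mul_ne_zero (mul_ne_zero hs (hg0 j)) hUj hrj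
    have hyi0 : a (y i0) ≠ 0 := ha0 _ (hy0 i0)
    have hden : a (y i0) * s * U.eval (a (D.e j)) ≠ 0 := mul_ne_zero (mul_ne_zero hyi0 hs) hUj
    have main : a (kd.d i j) * U.eval (a (D.e i)) =
        (a x * z i * z j * ri * rj / (a (y i0) * s * U.eval (a (D.e j)))) ^ 2 *
          U.eval (a (D.e j)) := by
      rw [div_pow, div_mul_eq_mul_div, eq_div_iff (pow_ne_zero _ hden), e0]
      generalize U.eval (a (D.e i)) = Ui at hri ⊢
      generalize U.eval (a (D.e j)) = Uj at hrj ⊢
      have e3 : a (y i) * a (y j) * a (y i0) ^ 2 = g i * z i ^ 2 * (g j * z j ^ 2) := by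
        rw [← e1, ← e2]
        ring
      linear_combination (a x ^ 2 * Ui * s ^ 2 * Uj ^ 2) * e3 +
        (a x ^ 2 * z i ^ 2 * z j ^ 2 * Uj) * ((s * g j * Uj) * hri + ri * ri * hrj)
    refine ⟨a x * z i * z j * ri * rj / (a (y i0) * s * U.eval (a (D.e j))), ?_, ?_⟩
    · exact div_ne_zero (mul_ne_zero (mul_ne_zero (mul_ne_zero (mul_ne_zero (ha0 x hx0) (hz i))
        (hz j)) hri0) hrj0) hden
    · rw [ha] at main ⊢
      exact main

end Pool.Agent.Q238.SX
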