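import Pool.Agent.Q269.SX.St

/-!
# Project SX of helper269, job SX-SEL: the Selmer group is as large as the kernel
-/

set_option autoImplicit false
set_option linter.all false

open scoped Classical
open Polynomial IsDedekindDomain Finset

namespace Pool.Agent.Q238.SX

open Pool.Agent.Y164.HG
open Pool.Agent.Y713.SE (hp Pw cl)
open Pool.Agent.Y713.SE.Dat (au rs mC_mC mC_PT)
open Pool.Agent.Y164.PS (L ch el Fam)
open Pool.Agent.Q269.SL (BoundedBy RepV cl_PT_add descend RepV.mul)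
open Pool.Agent.Q269.SX

theorem card_le {G Z W : Type} [Finite G] [Finite W] (f : G → Z) (μ : G → W)
    (h : ∀ g g', f g = f g' → μ g = μ g' → g = g') :
    Nat.card G ≤ Nat.card (Set.range f) * Nat.card W := by
  have h1 : Function.Injective
      (fun g : G => ((⟨f g, ⟨g, rfl⟩⟩ : Set.range f), μ g)) := by
    intro g g' hg
    have e1 := congrArg (fun q : Set.range f × W => (q.1 : Z)) hg
    have e2 := congrArg Prod.snd hg
    exact h g g' e1 e2
  haveI : Finite (Set.range f) := Set.finite_range f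
  have h2 := Nat.card_le_card_of_injective _ h1
  rwa [Nat.card_prod] at h2

theorem div_eq_mul_of_sq {G : Type} [CommGroup G] {a b : G} (hb : b ^ 2 = 1) : a / b = a * b := by
  have : b⁻¹ = b := by
    rw [inv_eq_iff_mul_eq_one, ← sq, hb]
  rw [div_eq_mul_inv, this]

/-- the vector of a family of exponents -/
noncomputable def mu {n : ℕ} (hn : Odd n) (m : Fin n → ℕ) : EW n :=
  ⟨fun i => (m i : F2) + ∑ j, (m j : F2), by
    show ∑ i, ((m i : F2) + ∑ j, (m j : F2)) = 0
    rw [Finset.sum_add_distrib, Finset.sum_const, Finset.card_univ, Fintype.card_fin, nsmul_eq_mul,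
      odd_cast hn, one_mul]
    generalize (∑ j, (m j : F2)) = s
    revert s
    decide⟩

theorem mu_eq {n : ℕ} (hn : Odd n) {m m' : Fin n → ℕ} (h : mu hn m = mu hn m') (i j : Fin n) :
    m i + m' i ≡ m j + m' j [MOD 2] := by
  have h1 : ∀ i, (m i : F2) + ∑ j, (m j : F2) = (m' i : F2) + ∑ j, (m' j : F2) := fun i =>
    congrFun (congrArg Subtype.val h) i
  have e1 := h1 i
  have e2 := h1 j
  have h3 : ((m i + m' i : ℕ) : ZMod 2) = ((m j + m' j : ℕ) : ZMod 2) := by
    push_cast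
    have key : ∀ a b s t c d : ZMod 2, a + s = b + t → c + s = d + t → a + b = c + d := by decide
    exact key _ _ _ _ _ _ e1 e2
  exact (ZMod.natCast_eq_natCast_iff _ _ _).1 h3

section
variable {n : ℕ} {K : Type} [Field K] (D : Pool.Agent.Y713.SE.Dat 2 n K)

/-- the classes of the form `cl (PT m) * z ^ 2` -/
noncomputable def Nn {F : Type} [Field F] (D : Pool.Agent.Y713.SE.Dat 2 n F) :
    Subgroup (ClassGroup D.A) where
  carrier := {u | ∃ (m : Fin n → ℕ) (z : ClassGroup D.A), u = cl (D.PT m) * z ^ 2}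
  one_mem' := ⟨fun _ => 0, 1, by
    rw [D.cl_PT]
    simp⟩
  mul_mem' := by
    rintro _ _ ⟨m, z, rfl⟩ ⟨m', z', rfl⟩
    refine ⟨fun i => m i + m' i, z * z', ?_⟩
    rw [cl_PT_add, mul_pow]
    exact mul_mul_mul_comm _ _ _ _
  inv_mem' := by
    rintro _ ⟨m, z, rfl⟩
    refine ⟨m, z⁻¹, ?_⟩
    have h1 : (cl (D.PT m))⁻¹ = cl (D.PT m) := by
      rw [inv_eq_iff_mul_eq_one, ← sq, PT_sq]
    rw [mul_inv, h1, inv_pow]

/-- classes of `E` of order two are fixed by the Galois group -/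
theorem fix_of_sq {E : Type} [Field E] [Algebra K E] [IsSepClosed E] {p : ℕ} [ExpChar E p]
    {s : ClassGroup (D.base E).A} (hs : s ^ 2 = 1) (τ : E ≃ₐ[K] E) : D.mC (au τ) s = s := by
  have h1 : (D.base E).sC s = s := by
    rw [sC_inv, inv_eq_iff_mul_eq_one, ← sq, hs]
  obtain ⟨m, hm⟩ := (D.base E).phi_ker (p := p) h1
  rw [← (D.base E).cl_PT] at hm
  rw [hm, mC_PT]

end

theorem t_SEL (h1 : S_BWD) (h2 : S_CNT) (h3 : S_EXT) (h4 : S_INJ) (h5 : S_RPU) : S_SEL := by
  intro k K _ _ _ _ _ n a N H ι _ T _ hR D0 hδ he σ hcl hpar E _ _ _ _ p _ Ω _ _ _ _ _ _ _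
  have hn : Odd n := H.hn
  haveI : Finite (EW n) := inferInstance
  -- the group of the solutions
  let S : AddSubgroup (V (EW n) ι (Tau a) × EW n) :=
    { carrier := {q | IsSol H T σ q.1 q.2}
      add_mem' := by
        rintro q q' hq hq'
        refine ⟨fun x => ?_, fun s => ?_⟩
        · show E1 (A := AT T) (H.dat σ) (BT (QQ a) T) (fun i => ((T i).natDegree : F2))
            (q.1 + q'.1) (q.2 + q'.2) x = 0
          rw [E1_add, hq.1, hq'.1, add_zero]
        · show E2 (H.dat σ) (BT (QQ a) T) (q.1 + q'.1) (q.2 + q'.2) s = 0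
          rw [E2_add, hq.2, hq'.2, add_zero]
      zero_mem' := by
        refine ⟨fun x => ?_, fun s => ?_⟩
        · have := E1_add (A := AT T) (B := BT (QQ a) T) (H.dat σ)
            (fun i => ((T i).natDegree : F2)) 0 0 0 0 x
          rw [add_zero, add_zero] at this
          exact left_eq_add.1 this
        · have := E2_add (ι := ι) (H.dat σ) (B := BT (QQ a) T) 0 0 0 0 s
          rw [add_zero, add_zero] at this
          exact left_eq_add.1 this
      neg_mem' := by
        intro q hq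
        have : -q = q := by
          rw [neg_eq_iff_add_eq_zero]
          exact Prod.ext (V_add_self _) (W_add_self _)
        rw [this]
        exact hq }
  have hSneg : ∀ g : S, -g = g := by
    intro g
    rw [neg_eq_iff_add_eq_zero]
    exact Subtype.ext (Prod.ext (V_add_self _) (W_add_self _))
  have hScard : Nat.card S = kc (H.dat σ) (AT T) (BT (QQ a) T) (fun i => ((T i).natDegree : F2)) *
      Nat.card (EW n) :=
    h2 (EW n) ι (Tau a) (H.dat σ) (AT T) (BT (QQ a) T) (fun i => ((T i).natDegree : F2))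
      (AT_comm H.hm T) hcl hpar
  -- the cocycles
  have hB : ∀ g : S, ∃ χ : (E ≃ₐ[K] E) → Fin n → ℕ,
      D0.Coc (fun τ => cl ((D0.base E).PT (χ τ))) ∧ RepV H T D0 χ g.1.1 g.1.2 ∧
      ∀ v, D0.Triv (v.adicCompletion K) (Ω v) (fun τ => cl ((D0.base E).PT (χ τ))) := fun g =>
    h1 k K n a N H ι T hR D0 hδ he σ hcl E p Ω g.1.1 g.1.2 g.2
  choose χ hcoc hrep htriv using hB
  obtain ⟨c, hcdef⟩ : ∃ c : S → (E ≃ₐ[K] E) → ClassGroup (D0.base E).A,
      c = fun g τ => cl ((D0.base E).PT (χ g τ)) := ⟨_, rfl⟩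
  have hc : ∀ g τ, c g τ = cl ((D0.base E).PT (χ g τ)) := fun g τ => by rw [hcdef]
  have hc2 : ∀ g τ, c g τ ^ 2 = 1 := fun g τ => by rw [hc, PT_sq]
  have hinj : ∀ g g', (∀ τ, c g τ = c g' τ) → g = g' := by
    intro g g' h
    have h6 := (h5 k K n a N H ι T hR D0 hδ he E (χ g) (χ g') g.1.1 g'.1.1 g.1.2 g'.1.2 (hrep g)
      (hrep g')).1 (fun τ => by rw [← hc, ← hc]; exact h τ)
    exact Subtype.ext (Prod.ext h6.1 h6.2)
  have hadd : ∀ g g' τ, c (g + g') τ = c g τ * c g' τ := by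
    intro g g' τ
    have h6 := (h5 k K n a N H ι T hR D0 hδ he E (χ (g + g')) (fun τ i => χ g τ i + χ g' τ i)
      (g + g').1.1 (g.1.1 + g'.1.1) (g + g').1.2 (g.1.2 + g'.1.2) (hrep (g + g'))
      (RepV.mul H (hrep g) (hrep g'))).2 ⟨rfl, rfl⟩ τ
    rw [hc, hc, hc, h6, cl_PT_add]
  -- the subgroup of the coboundaries
  let G0 : AddSubgroup S :=
    { carrier := {g | D0.Cob (c g)}
      add_mem' := by
        rintro g g' ⟨Q, hQ⟩ ⟨Q', hQ'⟩
        refine ⟨Q * Q', fun τ => ?_⟩
        rw [hadd, hQ, hQ', map_mul, div_mul_div_comm]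
      zero_mem' := by
        refine ⟨1, fun τ => ?_⟩
        have := hadd 0 0 τ
        rw [add_zero] at this
        rw [map_one, div_one]
        exact left_eq_mul.1 this
      neg_mem' := by
        intro g hg
        rw [hSneg]
        exact hg }
  have hmC : ∀ (τ : E ≃ₐ[K] E) (z : ClassGroup (D0.base K).A),
      D0.mC (au τ) (D0.mC (Algebra.ofId K E) z) = D0.mC (Algebra.ofId K E) z := by
    intro τ z
    rw [mC_mC]
    congr 2
    exact Subsingleton.elim _ _
  have hQ : ∀ g : G0, ∃ (Q : ClassGroup (D0.base E).A) (y : ClassGroup (D0.base K).A),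
      (∀ τ, c g.1 τ = D0.mC (au τ) Q / Q) ∧ D0.mC (Algebra.ofId K E) y = Q ^ 2 := by
    intro g
    obtain ⟨Q, hQ⟩ : D0.Cob (c g.1) := g.2
    obtain ⟨y, hy⟩ := descend D0 h3 (Q ^ 2) (fun τ => by
      have h6 := hc2 g.1 τ
      rw [hQ, div_pow, div_eq_one] at h6
      rw [map_pow, h6])
    exact ⟨Q, y, hQ, hy⟩
  choose Q y hQc hQy using hQ
  -- the classes of the rational points
  obtain ⟨f, hf⟩ : ∃ f : G0 → ClassGroup (D0.base K).A ⧸ Nn (D0.base K),
      f = fun g => QuotientGroup.mk (y g) := ⟨_, rfl⟩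
  have hr : ∀ ξ : Set.range f, ∃ g : G0, f g = ξ := fun ξ => ξ.2
  choose r hr using hr
  have hmz : ∀ g : G0, ∃ (m : Fin n → ℕ) (z : ClassGroup (D0.base K).A),
      y g = y (r ⟨f g, g, rfl⟩) * (cl ((D0.base K).PT m) * z ^ 2) := by
    intro g
    have hfx : ∀ x : G0, f x = QuotientGroup.mk (y x) := fun x => congrFun hf x
    have h6 : f (r ⟨f g, g, rfl⟩) = f g := hr ⟨f g, g, rfl⟩
    have h7 : (QuotientGroup.mk (y (r ⟨f g, g, rfl⟩)) :
        ClassGroup (D0.base K).A ⧸ Nn (D0.base K)) = QuotientGroup.mk (y g) :=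
      (hfx _).symm.trans (h6.trans (hfx g))
    obtain ⟨m, z, hmz⟩ := QuotientGroup.eq.1 h7
    refine ⟨m, z, ?_⟩
    rw [← hmz, mul_inv_cancel_left]
  choose m z hmz using hmz
  have hfib : ∀ g g' : G0, f g = f g' → mu hn (m g) = mu hn (m g') → g = g' := by
    intro g g' hfg hmm
    obtain ⟨ρ, hρ⟩ : ∃ ρ : G0, ρ = r ⟨f g, g, rfl⟩ := ⟨_, rfl⟩
    have hρ' : ρ = r ⟨f g', g', rfl⟩ := by
      rw [hρ]
      congr 1
      exact Subtype.ext hfg
    have e1 := hmz g
    have e2 := hmz g'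
    rw [← hρ] at e1
    rw [← hρ'] at e2
    -- the differences
    have key : ∀ g₁ : G0, y g₁ = y ρ * (cl ((D0.base K).PT (m g₁)) * z g₁ ^ 2) →
        (Q g₁ / (Q ρ * D0.mC (Algebra.ofId K E) (z g₁))) ^ 2 = cl ((D0.base E).PT (m g₁)) ∧
        ∀ τ, c g₁.1 τ / c ρ.1 τ = D0.mC (au τ) (Q g₁ / (Q ρ * D0.mC (Algebra.ofId K E) (z g₁))) /
          (Q g₁ / (Q ρ * D0.mC (Algebra.ofId K E) (z g₁))) := by
      intro g₁ e
      constructor
      · rw [div_pow, mul_pow, ← hQy, ← hQy, e, map_mul, map_mul, map_pow, mC_PT]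
        generalize D0.mC (Algebra.ofId K E) (y ρ) = u
        generalize D0.mC (Algebra.ofId K E) (z g₁) ^ 2 = v
        generalize cl ((D0.base E).PT (m g₁)) = w
        rw [mul_comm w v, ← mul_assoc, mul_div_cancel_left]
      · intro τ
        rw [hQc, hQc, _root_.map_div, map_mul, hmC]
        generalize D0.mC (au τ) (Q g₁) = u1
        generalize D0.mC (au τ) (Q ρ) = u2
        generalize D0.mC (Algebra.ofId K E) (z g₁) = v
        rw [div_div_div_comm u1 (u2 * v), mul_div_mul_right_eq_div]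
    obtain ⟨k1, k2⟩ := key g e1
    obtain ⟨k3, k4⟩ := key g' e2
    generalize Q g / (Q ρ * D0.mC (Algebra.ofId K E) (z g)) = t at k1 k2
    generalize Q g' / (Q ρ * D0.mC (Algebra.ofId K E) (z g')) = t' at k3 k4
    have k5 : (t / t') ^ 2 = 1 := by
      rw [div_pow, k1, k3, div_eq_mul_of_sq (PT_sq _ _), ← cl_PT_add]
      exact (D0.base E).cl_PT_of_modEq (mu_eq hn hmm)
    have k6 : ∀ τ, D0.mC (au τ) t / t = D0.mC (au τ) t' / t' := by
      intro τ
      have k7 := fix_of_sq D0 (p := p) k5 τ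
      rw [_root_.map_div, div_eq_div_iff_mul_eq_mul] at k7
      rw [div_eq_div_iff_mul_eq_mul, k7, mul_comm]
    have k8 : g.1 = g'.1 := by
      apply hinj
      intro τ
      have k9 := (k2 τ).trans ((k6 τ).trans (k4 τ).symm)
      exact div_left_injective k9
    exact Subtype.ext k8
  haveI : Finite S := inferInstance
  haveI : Finite (S ⧸ G0) := inferInstance
  haveI : Finite (Set.range f) := Set.finite_range f
  let eA : Fin (Nat.card (Set.range f)) ≃ Set.range f := (Finite.equivFin _).symm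
  let eB : Fin (Nat.card (S ⧸ G0)) ≃ (S ⧸ G0) := (Finite.equivFin _).symm
  refine ⟨Nat.card (Set.range f), Nat.card (S ⧸ G0), fun i => y (r (eA i)),
    fun j => c (eB j).out, ?_, ?_, ?_, ?_, ?_, ?_⟩
  · have h6 := card_le f (fun g => mu hn (m g)) hfib
    have h7 := AddSubgroup.card_eq_card_quotient_mul_card_addSubgroup G0
    have h8 : 0 < Nat.card (EW n) := Nat.card_pos
    apply Nat.le_of_mul_le_mul_right _ h8
    rw [← hScard, h7]
    calc Nat.card (S ⧸ G0) * Nat.card G0
        ≤ Nat.card (S ⧸ G0) * (Nat.card (Set.range f) * Nat.card (EW n)) := Nat.mul_le_mul_left _ h6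
      _ = _ := by ring
  · rintro i j hij ⟨m', z', h6⟩
    apply hij
    apply eA.injective
    apply Subtype.ext
    have h6' : y (r (eA i)) = y (r (eA j)) * cl ((D0.base K).PT m') * z' ^ 2 := h6
    have hfx : ∀ x : G0, f x = QuotientGroup.mk (y x) := fun x => congrFun hf x
    have h9 : (QuotientGroup.mk (y (r (eA j))) :
        ClassGroup (D0.base K).A ⧸ Nn (D0.base K)) = QuotientGroup.mk (y (r (eA i))) := by
      refine QuotientGroup.eq.2 ⟨m', z', ?_⟩
      rw [h6', mul_assoc, inv_mul_cancel_left]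
    exact (hr (eA i)).symm.trans ((hfx _).trans (h9.symm.trans ((hfx _).symm.trans (hr (eA j)))))
  · intro j
    have h6 : c (eB j).out = fun τ => cl ((D0.base E).PT (χ (eB j).out τ)) :=
      funext fun τ => hc _ τ
    show D0.Coc (c (eB j).out)
    rw [h6]
    exact hcoc _
  · intro j v
    have h6 : c (eB j).out = fun τ => cl ((D0.base E).PT (χ (eB j).out τ)) :=
      funext fun τ => hc _ τ
    show D0.Triv (v.adicCompletion K) (Ω v) (c (eB j).out)
    rw [h6]
    exact htriv _ v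
  · intro j
    refine ⟨1, fun τ => ?_⟩
    rw [map_one, div_one]
    exact hc2 _ τ
  · intro i j hij h6
    apply hij
    apply eB.injective
    rw [← Quotient.out_eq (eB i), ← Quotient.out_eq (eB j)]
    refine QuotientAddGroup.eq.2 ?_
    rw [hSneg]
    obtain ⟨Q', hQ'⟩ := h6
    refine ⟨Q', fun τ => ?_⟩
    have h7 : c (eB i).out τ / c (eB j).out τ = D0.mC (au τ) Q' / Q' := hQ' τ
    rw [hadd, ← h7, div_eq_mul_of_sq (hc2 _ τ)]

end Pool.Agent.Q238.SX
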